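import Pool.Agent.ZTO.Stmts

/-!
# Squad ZTO, row ABC (helper21)

The top of the chain is abelian modulo a term of the chain.
-/

set_option autoImplicit false

namespace Pool.Agent.ZTO.H21

open Pool.Agent.ZTO

section
variable {G : Type} [Group G]

lemma mem_iter {p : ℕ} {ψ : G →* G} {n : ℕ} {A : ℕ → Subgroup G} (h : Chn p ψ n A) (a : ℕ) :
    ∀ (j : ℕ) (g : G), g ∈ A (a + j) ↔ (⇑ψ)^[j] g ∈ A a := by
  intro j
  induction j with
  | zero => intro g; rfl
  | succ j ih =>
    intro g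
    rw [Function.iterate_succ_apply, ← ih (ψ g), ← add_assoc]
    exact h.com (a + j) g

lemma relIndex_chain {p : ℕ} {ψ : G →* G} {n : ℕ} {A : ℕ → Subgroup G} (h : Chn p ψ n A) (a : ℕ) :
    ∀ b : ℕ, a + b ≤ n → A a ≤ A (a + b) ∧ (A a).relIndex (A (a + b)) = p ^ b := by
  intro b
  induction b with
  | zero => intro _; exact ⟨le_rfl, by rw [add_zero, Subgroup.relIndex_self, pow_zero]⟩
  | succ b ih =>
    intro hb
    obtain ⟨h1, h2⟩ := ih (by omega)
    have h3 := h.mono (a + b)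
    refine ⟨h1.trans h3, ?_⟩
    rw [← add_assoc, ← Subgroup.relIndex_mul_relIndex _ _ _ h1 h3, h2, h.idx (a + b) (by omega),
      pow_succ]

end

/-- ABC. -/
theorem abc (hK : KerStmt) : AbcStmt := by
  intro G _ _ p ψ hp k
  obtain ⟨k1, k2, k3, k4, k5, k6, k7⟩ := hK G (p ^ k)
  obtain ⟨B, hB0, hBs⟩ : ∃ B : ℕ → Subgroup G, B 0 = Ker G (p ^ k) ∧
      ∀ j, B (j + 1) = (B j).comap ψ :=
    ⟨fun j => Nat.rec (Ker G (p ^ k)) (fun _ H => H.comap ψ) j, rfl, fun j => rfl⟩
  have hmem : ∀ (j : ℕ) (g : G), g ∈ B j ↔ (⇑ψ)^[j] g ∈ Ker G (p ^ k) := by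
    intro j
    induction j with
    | zero => intro g; rw [hB0]; rfl
    | succ j ih => intro g; rw [hBs, Subgroup.mem_comap, ih, Function.iterate_succ_apply]
  have hmono : ∀ j, B j ≤ B (j + 1) := by
    intro j
    induction j with
    | zero => rw [hBs 0, hB0]; exact fun g hg => k3 ψ g hg
    | succ j ih =>
      rw [hBs (j + 1)]
      conv_lhs => rw [hBs j]
      exact Subgroup.comap_mono ih
  have hfin : ∀ j, (B j).FiniteIndex := by
    intro j
    have h0 : (B 0).FiniteIndex := by rw [hB0]; exact k2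
    have h1 : B 0 ≤ B j := monotone_nat_of_le_succ hmono (Nat.zero_le j)
    exact Subgroup.finiteIndex_of_le h1
  have hst : ∃ m, B m = B (m + 1) := by
    refine Classical.byContradiction fun hne' => ?_
    have hne : ∀ m, B m ≠ B (m + 1) := fun m h => hne' ⟨m, h⟩
    have h1 : ∀ m, (B m).index + m ≤ (B 0).index := by
      intro m
      induction m with
      | zero => exact le_rfl
      | succ m ih =>
        have h0 := hfin m
        have h2 := Subgroup.index_strictAnti (lt_of_le_of_ne (hmono m) (hne m))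
        omega
    have h3 := h1 ((B 0).index + 1)
    omega
  obtain ⟨m, hm⟩ := hst
  have hst2 : ∀ j, B (m + j) = B m := by
    intro j
    induction j with
    | zero => rfl
    | succ j ih => rw [← add_assoc, hBs, ih, ← hBs, ← hm]
  refine ⟨m, fun n A hA hA0 v hv i hi hin y hy => ?_⟩
  -- `ψ^m v` is in the kernel
  have h1 : (⇑ψ)^[n] v ∈ A 0 := (mem_iter hA 0 n v).1 (by rwa [zero_add])
  have h2 : v ∈ B n := (hmem n v).2 (hA0 h1)
  have h3 : v ∈ B m := by
    rw [← hst2 (n - m), show m + (n - m) = n by omega]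
    exact h2
  have h4 := (hmem m v).1 h3
  -- `ψ^m y`
  have h5 : (⇑ψ)^[m] y ∈ A (i - m) := (mem_iter hA (i - m) m y).1 (by
    rw [show i - m + m = i by omega]; exact hy)
  obtain ⟨h6, h7⟩ := relIndex_chain hA (i - m - k) k (by omega)
  rw [show i - m - k + k = i - m by omega] at h6 h7
  have hpk : p ^ k ≠ 0 := pow_ne_zero k hp.ne_zero
  have h8 := k7 (A (i - m)) (A (i - m - k)) h6 (hA.nrm _) (hA.nrm _) (by rw [h7]; exact hpk)
    (by rw [h7]) _ h4 _ h5
  have h9 : (⇑ψ)^[m] (v * y * v⁻¹ * y⁻¹) ∈ A (i - m - k) := by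
    rw [iterate_map_mul, iterate_map_mul, iterate_map_mul, iterate_map_inv, iterate_map_inv]
    exact h8
  have h10 := (mem_iter hA (i - m - k) m (v * y * v⁻¹ * y⁻¹)).2 h9
  rwa [show i - m - k + m = i - k by omega] at h10

end Pool.Agent.ZTO.H21
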